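import Pool.Agent.H494.NG.Lin
import Pool.Graph.R_pool_sql_team_seeded_f72693b1.W245.HF.Grow

/-!
# Near relations of higher degree
-/

set_option autoImplicit false

open Filter Module

noncomputable section

namespace Pool.Agent.H494.NG

open Pool.Agent.Q29.SpaceRank

/-- the value of a monomial -/
def mono {σ R : Type} [CommRing R] (Y : σ → R) (m : σ →₀ ℕ) : R := m.prod fun i e => Y i ^ e

theorem mono_add {σ R : Type} [CommRing R] (Y : σ → R) (m m' : σ →₀ ℕ) :
    mono Y (m + m') = mono Y m * mono Y m' := by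
  classical
  unfold mono
  exact Finsupp.prod_add_index' (fun _ => pow_zero _) (fun _ _ _ => pow_add _ _ _)

theorem mono_single {σ R : Type} [CommRing R] (Y : σ → R) (i : σ) :
    mono Y (Finsupp.single i 1) = Y i := by
  unfold mono
  rw [Finsupp.prod_single_index (h := fun i e => Y i ^ e) (pow_zero _), pow_one]

theorem map_mono {σ R S : Type} [CommRing R] [CommRing S] (f : R →+* S) (Y : σ → R) (m : σ →₀ ℕ) :
    f (mono Y m) = mono (fun i => f (Y i)) m := by
  unfold mono
  rw [map_finsuppProd]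
  simp only [map_pow]

/-- the powers of the space spanned by `1` and some numbers -/
theorem pow_le_span {k F σ : Type} [Field k] [Field F] [Algebra k F] (Y : σ → F) (T : Finset σ) (n : ℕ) :
    (Submodule.span k (insert 1 (Y '' T))) ^ n ≤
      Submodule.span k (mono Y '' {m | m.support ⊆ T ∧ m.degree ≤ n}) := by
  classical
  induction n with
  | zero =>
    rw [pow_zero, Submodule.one_eq_span, Submodule.span_le, Set.singleton_subset_iff]
    refine Submodule.subset_span ⟨0, ⟨by simp, by simp⟩, ?_⟩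
    simp [mono]
  | succ n ih =>
    rw [pow_succ]
    refine (Submodule.mul_le.2 fun a ha b hb => Submodule.mul_mem_mul (ih ha) hb).trans ?_
    rw [Submodule.span_mul_span, Submodule.span_le]
    rintro _ ⟨_, ⟨m, ⟨hm1, hm2⟩, rfl⟩, s, hs, rfl⟩
    rcases hs with rfl | ⟨i, hi, rfl⟩
    · refine Submodule.subset_span ⟨m, ⟨hm1, by omega⟩, ?_⟩
      show mono Y m = mono Y m * 1
      rw [mul_one]
    · refine Submodule.subset_span ⟨m + Finsupp.single i 1, ⟨?_, ?_⟩, ?_⟩
      · refine Finsupp.support_add.trans (Finset.union_subset hm1 ?_)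
        refine Finsupp.support_single_subset.trans ?_
        rw [Finset.singleton_subset_iff]
        exact hi
      · rw [map_add, Finsupp.degree_single]
        omega
      · show mono Y (m + Finsupp.single i 1) = mono Y m * Y i
        rw [mono_add, mono_single]

/-- the polynomials with monomials in `M`, with integer coefficients of absolute value at most `X` and with a value of
absolute value less than `δ` at `x` -/
def Near {σ : Type} (M : Finset (σ →₀ ℕ)) (x : σ → ℝ) (X δ : ℝ) : Set (MvPolynomial σ ℚ) :=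
  {P | P.support ⊆ M ∧ (∀ m, ∃ n : ℤ, P.coeff m = n ∧ |(n : ℝ)| ≤ X) ∧ |MvPolynomial.aeval x P| < δ}

theorem aeval_eq {σ : Type} (M : Finset (σ →₀ ℕ)) (x : σ → ℝ) (P : MvPolynomial σ ℚ) (hP : P.support ⊆ M)
    (v : M → ℤ) (hv : ∀ m : M, P.coeff m = v m) :
    MvPolynomial.aeval x P = ∑ m : M, (v m : ℝ) * mono x m := by
  rw [MvPolynomial.aeval_def, MvPolynomial.eval₂_eq, Finset.sum_subset hP (fun m _ hm => by
    rw [MvPolynomial.notMem_support_iff.1 hm, map_zero, zero_mul]), ← Finset.sum_coe_sort M]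
  refine Finset.sum_congr rfl fun m _ => ?_
  rw [hv m, eq_ratCast, Rat.cast_intCast]
  rfl

theorem near_finite {σ : Type} (M : Finset (σ →₀ ℕ)) (x : σ → ℝ) (X δ : ℝ) :
    FiniteDimensional ℚ (Submodule.span ℚ (Near M x X δ)) := by
  have h1 : FiniteDimensional ℚ (MvPolynomial.restrictSupport ℚ (M : Set (σ →₀ ℕ))) :=
    Module.Finite.of_basis (MvPolynomial.basisRestrictSupport ℚ (M : Set (σ →₀ ℕ)))
  refine Submodule.finiteDimensional_of_le (S₂ := MvPolynomial.restrictSupport ℚ (M : Set (σ →₀ ℕ))) ?_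
  rw [Submodule.span_le]
  intro P hP
  show P ∈ MvPolynomial.restrictSupport ℚ (M : Set (σ →₀ ℕ))
  rw [MvPolynomial.mem_restrictSupport_iff]
  exact_mod_cast hP.1

/-- **Near relations of higher degree.** -/
theorem near_grow {σ : Type} (M : Finset (σ →₀ ℕ)) (T : Finset σ) (n : ℕ)
    (hM : ∀ m : σ →₀ ℕ, m.support ⊆ T → m.degree ≤ n + 1 → m ∈ M)
    {p : ℕ} (z : Fin p → ℝ) (d κ : ℕ) (c0 : ℝ) (hc0 : 0 < c0) (hz : SpaceDist z d κ c0)
    (t : ℝ) (ht : TMeas t) (i0 : σ) (hi0 : i0 ∈ T) (e : Fin p → σ) (he : ∀ i, e i ∈ T) (B : ℕ) :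
    ∃ (E : ℕ) (c : ℝ), 0 < c ∧ ∀ x : σ → ℝ, x i0 = t → (∀ i, x (e i) = z i) → ∀ X : ℝ, 1 ≤ X →
      (∀ i, |x i| ≤ B * X ^ B) →
      2 * finrank ℚ (Submodule.span ℚ (Near M x X (c / X ^ E))) + (n + 2) * (d + 2) ≤ 2 * M.card := by
  classical
  by_contra hcon
  push Not at hcon
  obtain ⟨m, hm, hm2⟩ : ∃ m, 2 * M.card < 2 * m + (n + 2) * (d + 2) ∧
      ∀ m', 2 * M.card < 2 * m' + (n + 2) * (d + 2) → m ≤ m' := by
    have h : ∃ m, 2 * M.card < 2 * m + (n + 2) * (d + 2) := ⟨M.card + 1, by omega⟩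
    exact ⟨Nat.find h, Nat.find_spec h, fun m' h' => Nat.find_min' h h'⟩
  have h1 : ∀ j : ℕ, ∃ (xx : σ → ℝ) (X : ℝ) (P : Fin m → MvPolynomial σ ℚ), xx i0 = t ∧
      (∀ i, xx (e i) = z i) ∧ 1 ≤ X ∧ (∀ i, |xx i| ≤ B * X ^ B) ∧
      (∀ l, P l ∈ Near M xx X (1 / ((j : ℝ) + 2) ^ j / X ^ j)) ∧ LinearIndependent ℚ P := by
    intro j
    obtain ⟨xx, h2, h3, X, h4, h5, h6⟩ := hcon j (1 / ((j : ℝ) + 2) ^ j) (by positivity)
    have h7 := hm2 _ h6
    have hfd := near_finite M xx X (1 / ((j : ℝ) + 2) ^ j / X ^ j)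
    obtain ⟨f, hf1, -, hf2⟩ := Submodule.exists_fun_fin_finrank_span_eq ℚ
      (Near M xx X (1 / ((j : ℝ) + 2) ^ j / X ^ j))
    exact ⟨xx, X, fun l => f (Fin.castLE h7 l), h2, h3, h4, h5, fun l => hf1 _,
      hf2.comp _ (Fin.castLE_injective h7)⟩
  choose xx X P hx0 hxe hX1 hxB hP hPi using h1
  obtain ⟨S, hS⟩ : ∃ S : Scale, ∀ j, S.X j = ((j : ℝ) + 2) * X j :=
    ⟨⟨fun j => ((j : ℝ) + 2) * X j, fun j => le_mul_of_one_le_right (by positivity) (hX1 j)⟩, fun _ => rfl⟩
  have hXS : ∀ j, X j ≤ S.X j := by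
    intro j
    rw [hS]
    have := hX1 j
    refine le_mul_of_one_le_left (by linarith) ?_
    have : (0 : ℝ) ≤ j := Nat.cast_nonneg j
    linarith
  obtain ⟨F, hF, ⟨C⟩⟩ := exists_cls S
  -- the coordinates
  obtain ⟨Y, hY⟩ : ∃ Y : σ → A S, ∀ i j, (Y i : ℕ → ℝ) j = xx j i := by
    refine ⟨fun i => ⟨fun j => xx j i, B + 1, ?_⟩, fun _ _ => rfl⟩
    filter_upwards [S.ev_gt B] with j hj
    have h2 := hX1 j
    have h3 := (S.pos j).le
    calc |xx j i| ≤ B * X j ^ B := hxB j i
      _ ≤ S.X j * S.X j ^ B := by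
        have := hXS j
        gcongr
      _ = S.X j ^ (B + 1) := by rw [pow_succ]; ring
  have hYv : ∀ (m' : σ →₀ ℕ) (j : ℕ), ((mono Y m' : A S) : ℕ → ℝ) j = mono (xx j) m' := by
    intro m' j
    have h2 := map_mono ((Pi.evalRingHom (fun _ => ℝ) j).comp (A S).subtype) Y m'
    have h3 : (fun i => ((Pi.evalRingHom (fun _ => ℝ) j).comp (A S).subtype) (Y i)) = xx j :=
      funext fun i => hY i j
    rw [h3] at h2
    exact h2
  -- the coefficients
  have hcoef : ∀ j l, ∃ v : (σ →₀ ℕ) → ℤ, ∀ m', (P j l).coeff m' = v m' ∧ |(v m' : ℝ)| ≤ X j := by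
    intro j l
    choose v hv using (hP j l).2.1
    exact ⟨v, hv⟩
  choose v hv using hcoef
  have hfin := finrank_add_le (C := C) (fun m' : M => mono Y (m' : σ →₀ ℕ)) m 1
    (fun j l m' => v j l m') (fun j a ha => by
      have h2 := Fintype.linearIndependent_iff.1 (hPi j) (fun l => (a l : ℚ)) (by
        ext m'
        rw [MvPolynomial.coeff_zero, MvPolynomial.coeff_sum]
        by_cases hm' : m' ∈ M
        · have h3 := ha ⟨m', hm'⟩
          have h4 : ((∑ l, a l * v j l m' : ℤ) : ℚ) = 0 := by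
            rw [h3, Int.cast_zero]
          rw [← h4]
          push_cast
          refine Finset.sum_congr rfl fun l _ => ?_
          rw [MvPolynomial.coeff_smul, (hv j l m').1, smul_eq_mul]
        · refine Finset.sum_eq_zero fun l _ => ?_
          rw [MvPolynomial.coeff_smul, MvPolynomial.notMem_support_iff.1 (fun h => hm' ((hP j l).1 h)),
            smul_zero])
      funext l
      exact_mod_cast h2 l)
    (by
      filter_upwards with j l m'
      rw [pow_one]
      exact (hv j l m').2.trans (hXS j))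
    (by
      intro l k
      filter_upwards [ev_ge k] with j hj
      have h2 := (hP j l).2.2
      rw [aeval_eq M (xx j) (P j l) (hP j l).1 (fun m' => v j l m') (fun m' => (hv j l m').1)] at h2
      have h3 : ∑ m' : M, (v j l m' : ℝ) * ((mono Y (m' : σ →₀ ℕ) : A S) : ℕ → ℝ) j =
          ∑ m' : M, (v j l m' : ℝ) * mono (xx j) m' :=
        Finset.sum_congr rfl fun m' _ => by rw [hYv]
      rw [h3]
      have h4 : (1 : ℝ) / ((j : ℝ) + 2) ^ j / X j ^ j = 1 / S.X j ^ j := by
        rw [hS, mul_pow, div_div]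
      rw [h4] at h2
      have h5 := S.pos j
      have h6 : S.X j ^ k ≤ S.X j ^ j := pow_le_pow_right₀ (S.one_le j) hj
      calc |∑ m' : M, (v j l m' : ℝ) * mono (xx j) m'| * S.X j ^ k ≤ (1 / S.X j ^ j) * S.X j ^ j := by
            gcongr
        _ = 1 := by
            field_simp)
  -- the space
  obtain ⟨V, hV⟩ : ∃ V : Submodule (k0 C) F, V = Submodule.span (k0 C) (insert 1 ((fun i => C.cl (Y i)) '' T)) :=
    ⟨_, rfl⟩
  have hVf : FiniteDimensional (k0 C) V := by
    rw [hV]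
    exact FiniteDimensional.span_of_finite _ (((T : Set σ).toFinite.image _).insert 1)
  have hV1 : (1 : F) ∈ V := by
    rw [hV]
    exact Submodule.subset_span (Set.mem_insert _ _)
  have hVY : ∀ i ∈ T, C.cl (Y i) ∈ V := by
    intro i hi
    rw [hV]
    exact Submodule.subset_span (Set.mem_insert_of_mem _ ⟨i, hi, rfl⟩)
  have hem : ∀ (i : σ) (r : ℝ), (∀ j, xx j i = r) → C.cl (Y i) = em C r := by
    intro i r h
    have h2 : Y i = cst S r := Subtype.ext (funext fun j => (hY i j).trans (h j))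
    rw [h2]
    rfl
  have hVd : d + 2 ≤ finrank (k0 C) V := by
    refine finrank_of_dist z d κ c0 hc0 hz V hV1 fun i => ?_
    rw [← hem (e i) (z i) (fun j => hxe j i)]
    exact hVY _ (he i)
  have hVt : Transcendental (k0 C) (C.cl (Y i0) / 1) := by
    rw [div_one, hem i0 t hx0]
    exact transc ht
  have hgrow := Pool.Agent.W245.HF.grow V (C.cl (Y i0)) 1 (hVY i0 hi0) hV1 hVt n
  have hpow : V ^ (n + 1) ≤ Submodule.span (k0 C) (Set.range fun m' : M => C.cl (mono Y (m' : σ →₀ ℕ))) := by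
    rw [hV]
    refine (pow_le_span (fun i => C.cl (Y i)) T (n + 1)).trans (Submodule.span_mono ?_)
    rintro _ ⟨m', ⟨h2, h3⟩, rfl⟩
    exact ⟨⟨m', hM m' h2 h3⟩, map_mono C.cl Y m'⟩
  have hfd : FiniteDimensional (k0 C)
      (Submodule.span (k0 C) (Set.range fun m' : M => C.cl (mono Y (m' : σ →₀ ℕ)))) :=
    FiniteDimensional.span_of_finite _ (Set.finite_range _)
  have h2 := Submodule.finrank_mono hpow
  rw [Fintype.card_coe] at hfin
  have h3 : (n + 2) * (d + 2) ≤ (n + 2) * finrank (k0 C) V := Nat.mul_le_mul_left _ hVd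
  omega

end Pool.Agent.H494.NG
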