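import Pool.Agent.H494.NG.Res
import Pool.Graph.R_pool_sql_team_seeded_2aa45f1a.Q29.SpaceRank

/-!
# Linear independence and dimensions in the residue field
-/

set_option autoImplicit false

open Filter Module

noncomputable section

namespace Pool.Agent.H494.NG

open Pool.Agent.Q29.SpaceRank

variable {x : Scale} {F : Type} [Field F] {C : Cls x F}

theorem sum_apply {ι : Type} (s : Finset ι) (f : ι → A x) (j : ℕ) :
    ((∑ i ∈ s, f i : A x) : ℕ → ℝ) j = ∑ i ∈ s, (f i : ℕ → ℝ) j := by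
  rw [AddSubmonoidClass.coe_finsetSum, Finset.sum_apply]

/-- integer representatives with a common bound -/
theorem exists_reps {ι : Type} [Fintype ι] (a : ι → F) (ha : ∀ i, a i ∈ R0 C) :
    ∃ (z : ι → ℕ → ℤ) (b : ι → A x) (k : ℕ), (∀ i j, (b i : ℕ → ℝ) j = z i j) ∧
      (∀ i, a i = C.cl (b i)) ∧ ∀ᶠ j in U, ∀ i, |(z i j : ℝ)| ≤ x.X j ^ k := by
  choose z b hb hab using ha
  choose k hk using fun i => (b i).2
  refine ⟨z, b, ∑ i, k i, hb, hab, ?_⟩
  rw [eventually_all]
  intro i
  filter_upwards [hk i] with j hj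
  rw [← hb]
  exact hj.trans (pow_le_pow_right₀ (x.one_le j) (Finset.single_le_sum (fun _ _ => Nat.zero_le _)
    (Finset.mem_univ i)))

/-- a measure of linear independence gives linear independence over `k0` -/
theorem linInd_of_meas {ι : Type} [Fintype ι] (y : ι → ℝ) (κ : ℕ) (c : ℝ) (hc : 0 < c)
    (h : ∀ q : ι → ℤ, q ≠ 0 → ∀ H : ℝ, 1 ≤ H → (∀ i, |(q i : ℝ)| ≤ H) →
      c ≤ H ^ κ * |∑ i, (q i : ℝ) * y i|) :
    LinearIndependent (k0 C) (fun i => em C (y i)) := by
  rw [Fintype.linearIndependent_iff]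
  intro g hg
  obtain ⟨q, hq, hq0, hqg⟩ := exists_common g
  obtain ⟨z, b, k, hb, hab, hk⟩ := exists_reps (fun i => q * (g i : F)) hqg
  have h1 : C.cl (∑ i, b i * cst x (y i)) = 0 := by
    rw [map_sum]
    have h2 : q * ∑ i, g i • em C (y i) = 0 := by rw [hg, mul_zero]
    rw [← h2, Finset.mul_sum]
    refine Finset.sum_congr rfl fun i _ => ?_
    rw [map_mul, ← hab]
    show q * (g i : F) * em C (y i) = _
    rw [Subfield.smul_def, smul_eq_mul, mul_assoc]
  rw [C.ker] at h1
  have h2 : ∀ᶠ j in U, (fun i => z i j) = 0 := by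
    filter_upwards [h1 (k * κ + 1), hk, x.ev_gt (1 / c)] with j h3 h4 h5
    by_contra h6
    have h7 := h _ h6 (x.X j ^ k) (one_le_pow₀ (x.one_le j)) h4
    have h8 : ((∑ i, b i * cst x (y i) : A x) : ℕ → ℝ) j = ∑ i, (z i j : ℝ) * y i := by
      rw [sum_apply]
      refine Finset.sum_congr rfl fun i _ => ?_
      rw [← hb]
      rfl
    rw [h8] at h3
    have hX := x.pos j
    rw [← pow_mul] at h7
    rw [pow_succ, ← mul_assoc] at h3
    have h9 : c * x.X j ≤ 1 := by
      calc c * x.X j ≤ (x.X j ^ (k * κ) * |∑ i, (z i j : ℝ) * y i|) * x.X j := by gcongr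
        _ = |∑ i, (z i j : ℝ) * y i| * x.X j ^ (k * κ) * x.X j := by ring
        _ ≤ 1 := h3
    rw [div_lt_iff₀ hc] at h5
    linarith
  intro i
  have h3 : q * (g i : F) = 0 := by
    rw [hab i, int_zero (hb i)]
    filter_upwards [h2] with j hj
    exact congrFun hj i
  rcases mul_eq_zero.1 h3 with h4 | h4
  · exact absurd h4 hq0
  · exact Subtype.ext h4

/-- `t` has a transcendence measure of polynomial type in every degree -/
def TMeas (t : ℝ) : Prop :=
  ∀ d : ℕ, ∃ (κ : ℕ) (c : ℝ), 0 < c ∧ ∀ P : Polynomial ℤ, P ≠ 0 → P.natDegree ≤ d →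
    ∀ H : ℝ, 1 ≤ H → (∀ j, |(P.coeff j : ℝ)| ≤ H) → c / H ^ κ ≤ |Polynomial.aeval t P|

theorem transc {t : ℝ} (ht : TMeas t) : Transcendental (k0 C) (em C t) := by
  intro halg
  obtain ⟨P, hP0, hP⟩ := halg
  obtain ⟨d, hd⟩ : ∃ d, d = P.natDegree := ⟨_, rfl⟩
  obtain ⟨κ, c, hc, h⟩ := ht d
  have hli : LinearIndependent (k0 C) (fun i : Fin (d + 1) => em C (t ^ (i : ℕ))) := by
    refine linInd_of_meas _ κ c hc fun q hq H hH hqH => ?_
    obtain ⟨Q, hQ⟩ : ∃ Q : Polynomial ℤ, Q = ∑ i : Fin (d + 1), Polynomial.C (q i) * Polynomial.X ^ (i : ℕ) :=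
      ⟨_, rfl⟩
    have hcoef : ∀ k, Q.coeff k = if h : k < d + 1 then q ⟨k, h⟩ else 0 := by
      intro k
      rw [hQ]
      simp only [Polynomial.finsetSum_coeff, Polynomial.coeff_C_mul, Polynomial.coeff_X_pow]
      by_cases h : k < d + 1
      · rw [dif_pos h, Finset.sum_eq_single ⟨k, h⟩]
        · simp
        · intro b _ hb
          rw [if_neg (fun h2 => hb (Fin.ext h2.symm)), mul_zero]
        · intro h2
          exact absurd (Finset.mem_univ _) h2
      · rw [dif_neg h]
        refine Finset.sum_eq_zero fun i _ => ?_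
        have := i.2
        rw [if_neg (by omega), mul_zero]
    have h1 := h Q (fun h => hq (by
      funext i
      have h1 := hcoef i
      rw [h, dif_pos i.2, Polynomial.coeff_zero] at h1
      exact h1.symm)) (by
      rw [Polynomial.natDegree_le_iff_coeff_eq_zero]
      intro k hk
      rw [hcoef k, dif_neg (by omega)]) H hH (fun k => by
      rw [hcoef k]
      split_ifs with h
      · exact hqH _
      · simp only [Int.cast_zero, abs_zero]
        linarith only [hH])
    have h2 : Polynomial.aeval t Q = ∑ i, (q i : ℝ) * t ^ (i : ℕ) := by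
      rw [hQ, map_sum]
      refine Finset.sum_congr rfl fun i _ => ?_
      rw [map_mul, map_pow, Polynomial.aeval_X, Polynomial.aeval_C]
      rfl
    rw [h2, div_le_iff₀ (by positivity)] at h1
    linarith
  rw [Fintype.linearIndependent_iff] at hli
  have h1 := hli (fun i => P.coeff i) (by
    have h2 := hP
    rw [Polynomial.aeval_eq_sum_range, ← hd, Finset.sum_range] at h2
    rw [← h2]
    refine Finset.sum_congr rfl fun i _ => ?_
    rw [map_pow])
  apply hP0
  ext k
  by_cases hk : k < d + 1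
  · rw [h1 ⟨k, hk⟩, Polynomial.coeff_zero]
  · rw [Polynomial.coeff_eq_zero_of_natDegree_lt (by omega), Polynomial.coeff_zero]

/-- coordinates with respect to a basis containing `1` -/
theorem exists_coord {k : Type} [Field k] [Algebra k F] (W : Submodule k F)
    [FiniteDimensional k W] (h1 : (1 : F) ∈ W) :
    ∃ (a : ℕ) (θ : Fin a → F), a + 1 = finrank k W ∧
      ∀ x ∈ W, ∃ (z0 : k) (z : Fin a → k), x = algebraMap k F z0 + ∑ i, θ i * algebraMap k F (z i) := by
  obtain ⟨d, hd⟩ : ∃ d, d = finrank k W := ⟨_, rfl⟩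
  have bs := Module.finBasisOfFinrankEq k W hd.symm
  obtain ⟨c, hc⟩ : ∃ c, c = bs.repr ⟨1, h1⟩ := ⟨_, rfl⟩
  have hne : ∃ i, c i ≠ 0 := by
    by_contra hcon
    push Not at hcon
    have h0 : (⟨1, h1⟩ : W) = 0 := by
      rw [← bs.repr.map_eq_zero_iff, ← hc]
      ext i
      exact hcon i
    have : (1 : F) = 0 := congrArg Subtype.val h0
    exact one_ne_zero this
  obtain ⟨i0, hi0⟩ := hne
  obtain ⟨d', rfl⟩ : ∃ d', d = d' + 1 := ⟨d - 1, by have := i0.2; omega⟩
  refine ⟨d', fun a => (bs (i0.succAbove a) : F), hd, ?_⟩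
  have key : ∀ (x : F) (hx : x ∈ W), x = algebraMap k F (bs.repr ⟨x, hx⟩ i0) * (bs i0 : F) +
      ∑ a : Fin d', algebraMap k F (bs.repr ⟨x, hx⟩ (i0.succAbove a)) * (bs (i0.succAbove a) : F) := by
    intro x hx
    have h2 := bs.sum_repr ⟨x, hx⟩
    have h3 := congrArg Subtype.val h2
    rw [Fin.sum_univ_succAbove _ i0] at h3
    simp only [Submodule.coe_add, Submodule.coe_sum, Submodule.coe_smul, Algebra.smul_def] at h3
    exact h3.symm
  have k1 := key 1 h1
  rw [← hc] at k1
  have hci : algebraMap k F (c i0) ≠ 0 := by simpa using hi0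
  intro x hx
  obtain ⟨y, hy⟩ : ∃ y, y = bs.repr ⟨x, hx⟩ := ⟨_, rfl⟩
  have k2 := key x hx
  rw [← hy] at k2
  refine ⟨y i0 / c i0, fun a => y (i0.succAbove a) - y i0 / c i0 * c (i0.succAbove a), ?_⟩
  have k3 : (bs i0 : F) = (1 - ∑ a : Fin d', algebraMap k F (c (i0.succAbove a)) *
      (bs (i0.succAbove a) : F)) / algebraMap k F (c i0) := by
    rw [eq_div_iff hci]
    linear_combination -k1
  rw [k2, k3]
  simp only [map_sub, map_mul, map_div₀, mul_sub, Finset.sum_sub_distrib]
  have e1 : ∑ a : Fin d', (bs (i0.succAbove a) : F) *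
      (algebraMap k F (y i0) / algebraMap k F (c i0) * algebraMap k F (c (i0.succAbove a))) =
      algebraMap k F (y i0) / algebraMap k F (c i0) *
        ∑ a : Fin d', algebraMap k F (c (i0.succAbove a)) * (bs (i0.succAbove a) : F) := by
    rw [Finset.mul_sum]
    exact Finset.sum_congr rfl fun a _ => by ring
  have e2 : ∑ a : Fin d', algebraMap k F (y (i0.succAbove a)) * (bs (i0.succAbove a) : F) =
      ∑ a : Fin d', (bs (i0.succAbove a) : F) * algebraMap k F (y (i0.succAbove a)) :=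
    Finset.sum_congr rfl fun a _ => mul_comm _ _
  rw [e1, e2]
  field_simp
  ring

/-- the distance to rational subspaces gives a lower bound for the dimension -/
theorem finrank_of_dist {p : ℕ} (z : Fin p → ℝ) (D κ : ℕ) (c : ℝ) (hc : 0 < c)
    (h : SpaceDist z D κ c) (V : Submodule (k0 C) (F)) [FiniteDimensional (k0 C) V] (h1 : (1 : F) ∈ V)
    (hz : ∀ i, em C (z i) ∈ V) : D + 2 ≤ finrank (k0 C) V := by
  by_contra hcon
  obtain ⟨a, θ0, ha, hθ0⟩ := exists_coord V h1
  have haD : a ≤ D := by omega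
  -- coordinates, with `D` parameters
  obtain ⟨θ, hθ⟩ : ∃ θ : Fin D → F, ∀ v ∈ V, ∃ (z0 : k0 C) (z : Fin D → k0 C),
      v = (z0 : F) + ∑ i, θ i * (z i : F) := by
    refine ⟨fun d => if hd : (d : ℕ) < a then θ0 ⟨d, hd⟩ else 0, fun v hv => ?_⟩
    obtain ⟨z0, z', hv'⟩ := hθ0 v hv
    refine ⟨z0, fun d => if hd : (d : ℕ) < a then z' ⟨d, hd⟩ else 0, ?_⟩
    rw [hv']
    congr 1
    refine Finset.sum_of_injOn (Fin.castLE haD) (fun _ _ _ _ h => Fin.castLE_injective haD h)
      (fun _ _ => Finset.mem_coe.2 (Finset.mem_univ _)) ?_ ?_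
    · intro d _ hd
      have hd' : ¬ (d : ℕ) < a := by
        intro hlt
        exact hd ⟨⟨d, hlt⟩, Finset.mem_coe.2 (Finset.mem_univ _), Fin.ext rfl⟩
      simp only [dif_neg hd', zero_mul]
    · intro i _
      have hi : ((Fin.castLE haD i : Fin D) : ℕ) < a := i.2
      simp only [dif_pos hi]
      rfl
  choose c0 cc hcc using fun i => hθ _ (hz i)
  -- integer representatives
  obtain ⟨g, hg⟩ : ∃ g : Fin p × Option (Fin D) → k0 C, (∀ i, g (i, none) = c0 i) ∧
      ∀ i d, g (i, some d) = cc i d :=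
    ⟨fun u => match u with | (i, none) => c0 i | (i, some d) => cc i d, fun _ => rfl, fun _ _ => rfl⟩
  obtain ⟨q, hq, hq0, hqg⟩ := exists_common g
  obtain ⟨f, hf⟩ : ∃ f : Option (Fin p × Option (Fin D)) → F, f none = q ∧ ∀ u, f (some u) = q * (g u : F) :=
    ⟨fun o => match o with | none => q | some u => q * (g u : F), rfl, fun _ => rfl⟩
  obtain ⟨w, b, k, hb, hab, hk⟩ := exists_reps f (by
    rintro (_ | u)
    · rw [hf.1]; exact hq
    · rw [hf.2]; exact hqg u)
  choose τ hτ using fun d => C.surj (θ d)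
  obtain ⟨e, he⟩ : ∃ e : Fin p → A x, e = fun i => b none * cst x (z i) - b (some (i, none)) -
      ∑ d, τ d * b (some (i, some d)) := ⟨_, rfl⟩
  have he0 : ∀ i, C.cl (e i) = 0 := by
    intro i
    rw [he]
    simp only [map_sub, map_sum, map_mul, ← hab, hτ, hf.1, hf.2, hg.1, hg.2]
    have h2 := hcc i
    have h3 : C.cl (cst x (z i)) = em C (z i) := rfl
    rw [h3, h2]
    have e1 : ∑ d, θ d * (q * (cc i d : F)) = q * ∑ d, θ d * (cc i d : F) := by
      rw [Finset.mul_sum]
      exact Finset.sum_congr rfl fun d _ => by ring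
    rw [e1]
    ring
  have hq1 : ∀ᶠ j in U, w none j ≠ 0 := by
    have h2 : ¬ ∀ᶠ j in U, w none j = 0 := by
      rw [← int_zero (C := C) (hb none), ← hab, hf.1]
      exact hq0
    exact Ultrafilter.eventually_not.2 h2
  have he1 : ∀ᶠ j in U, ∀ i, |((e i : A x) : ℕ → ℝ) j| * x.X j ^ (k * κ + 1) ≤ 1 := by
    rw [eventually_all]
    intro i
    exact (C.ker _).1 (he0 i) _
  obtain ⟨j, ⟨h2, h3⟩, h4, h5⟩ := ((hq1.and he1).and (hk.and (x.ev_gt (1 / c)))).exists
  have hX := x.pos j
  -- the sign of the denominator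
  obtain ⟨ε, hε, hεq⟩ : ∃ ε : ℤ, (ε = 1 ∨ ε = -1) ∧ ((w none j).natAbs : ℤ) = ε * w none j := by
    rcases le_total 0 (w none j) with h6 | h6
    · exact ⟨1, Or.inl rfl, by omega⟩
    · exact ⟨-1, Or.inr rfl, by omega⟩
  have hε2 : (ε : ℝ) * ε = 1 := by
    rcases hε with rfl | rfl <;> norm_num
  have hεa : |(ε : ℝ)| = 1 := by
    rcases hε with rfl | rfl <;> norm_num
  obtain ⟨i, hi⟩ := h (w none j).natAbs (fun i => ε * w (some (i, none)) j)
    (fun d i => ε * w (some (i, some d)) j) (fun d => (τ d : ℕ → ℝ) j) (x.X j ^ k)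
    (Int.natAbs_pos.2 h2) (by
      have := h4 none
      rwa [← Int.cast_abs, Int.abs_eq_natAbs, Int.cast_natCast] at this)
    (fun d i => by
      push_cast
      rw [abs_mul, hεa, one_mul]
      exact h4 _)
  have hqr : ((w none j).natAbs : ℝ) = ε * w none j := by
    rw [← Int.cast_natCast, hεq, Int.cast_mul]
  have hw0 : (w none j : ℝ) ≠ 0 := by exact_mod_cast h2
  have hε0 : (ε : ℝ) ≠ 0 := fun h => by rw [h, mul_zero] at hε2; exact zero_ne_one hε2
  have hval : z i - (((ε * w (some (i, none)) j : ℤ) : ℝ) + ∑ d, (τ d : ℕ → ℝ) j *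
      ((ε * w (some (i, some d)) j : ℤ) : ℝ)) / ((w none j).natAbs : ℝ) =
      ((e i : A x) : ℕ → ℝ) j / w none j := by
    have e2 : ((e i : A x) : ℕ → ℝ) j = w none j * z i - w (some (i, none)) j -
        ∑ d, (τ d : ℕ → ℝ) j * w (some (i, some d)) j := by
      rw [he]
      have e3 : (((∑ d, τ d * b (some (i, some d)) : A x)) : ℕ → ℝ) j =
          ∑ d, (τ d : ℕ → ℝ) j * w (some (i, some d)) j := by
        rw [sum_apply]
        refine Finset.sum_congr rfl fun d _ => ?_
        rw [← hb]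
        rfl
      rw [← e3, ← hb, ← hb]
      rfl
    have e4 : ∑ d, (τ d : ℕ → ℝ) j * ((ε * w (some (i, some d)) j : ℤ) : ℝ) =
        ε * ∑ d, (τ d : ℕ → ℝ) j * w (some (i, some d)) j := by
      rw [Finset.mul_sum]
      refine Finset.sum_congr rfl fun d _ => ?_
      push_cast
      ring
    rw [e4, e2, hqr]
    push_cast
    field_simp
    ring
  rw [hval, abs_div] at hi
  have hw1 : 1 ≤ |(w none j : ℝ)| := by exact_mod_cast Int.one_le_abs h2
  have h6 : |((e i : A x) : ℕ → ℝ) j| / |(w none j : ℝ)| ≤ |((e i : A x) : ℕ → ℝ) j| :=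
    div_le_self (abs_nonneg _) hw1
  have h7 := hi.trans h6
  rw [← pow_mul, div_le_iff₀ (by positivity)] at h7
  have h8 := h3 i
  rw [pow_succ, ← mul_assoc] at h8
  have h9 : c * x.X j ≤ 1 := (mul_le_mul_of_nonneg_right h7 hX.le).trans h8
  rw [div_lt_iff₀ hc] at h5
  linarith

/-- independent vectors of integers with very small values -/
theorem finrank_add_le {μ : Type} [Fintype μ] (y : μ → A x) (m k : ℕ)
    (v : ℕ → Fin m → μ → ℤ) (hv : ∀ j, ∀ a : Fin m → ℤ, (∀ i, ∑ l, a l * v j l i = 0) → a = 0)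
    (hX : ∀ᶠ j in U, ∀ l i, |(v j l i : ℝ)| ≤ x.X j ^ k)
    (hs : ∀ l, ∀ k : ℕ, ∀ᶠ j in U, |∑ i, (v j l i : ℝ) * (y i : ℕ → ℝ) j| * x.X j ^ k ≤ 1) :
    finrank (k0 C) (Submodule.span (k0 C) (Set.range fun i => C.cl (y i))) + m ≤ Fintype.card μ := by
  classical
  obtain ⟨b, hb⟩ : ∃ b : Fin m → μ → A x, ∀ l i j, (b l i : ℕ → ℝ) j = v j l i :=
    ⟨fun l i => ⟨fun j => v j l i, k, by
      filter_upwards [hX] with j hj
      exact hj l i⟩, fun _ _ _ => rfl⟩
  have hbR : ∀ l i, C.cl (b l i) ∈ R0 C := fun l i => ⟨fun j => v j l i, b l i, hb l i, rfl⟩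
  obtain ⟨W, hW⟩ : ∃ W : Fin m → μ → k0 C, ∀ l i, (W l i : F) = C.cl (b l i) :=
    ⟨fun l i => ⟨C.cl (b l i), R0_le (hbR l i)⟩, fun _ _ => rfl⟩
  -- independence
  have hli : LinearIndependent (k0 C) W := by
    rw [Fintype.linearIndependent_iff]
    intro g hg
    obtain ⟨q, hq, hq0, hqg⟩ := exists_common g
    obtain ⟨z, d, k', hd, had, hk'⟩ := exists_reps (fun i => q * (g i : F)) hqg
    have h1 : ∀ i, ∀ᶠ j in U, ∑ l, z l j * v j l i = 0 := by
      intro i
      have h2 : C.cl (∑ l, d l * b l i) = 0 := by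
        have h3 := congrArg (Subtype.val) (congrFun hg i)
        rw [Finset.sum_apply] at h3
        simp only [Pi.smul_apply, smul_eq_mul, Pi.zero_apply] at h3
        have h4 : ∑ l, (g l : F) * (W l i : F) = 0 := by
          have h5 : ((∑ l, g l * W l i : k0 C) : F) = 0 := h3
          rw [← h5]
          simp
        have h5 : q * ∑ l, (g l : F) * (W l i : F) = 0 := by rw [h4, mul_zero]
        rw [← h5, map_sum, Finset.mul_sum]
        refine Finset.sum_congr rfl fun l _ => ?_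
        rw [map_mul, ← had, ← hW]
        ring
      refine (int_zero (b := ∑ l, d l * b l i) fun j => ?_).1 h2
      rw [sum_apply]
      push_cast
      refine Finset.sum_congr rfl fun l _ => ?_
      rw [← hd, ← hb]
      rfl
    have h2 : ∀ᶠ j in U, (fun l => z l j) = 0 := by
      filter_upwards [eventually_all.2 h1] with j hj
      exact hv j _ hj
    intro l
    have h3 : q * (g l : F) = 0 := by
      rw [had l, int_zero (hd l)]
      filter_upwards [h2] with j hj
      exact congrFun hj l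
    rcases mul_eq_zero.1 h3 with h4 | h4
    · exact absurd h4 hq0
    · exact Subtype.ext h4
  -- the map of the values
  obtain ⟨Φ, hΦ⟩ : ∃ Φ : (μ → k0 C) →ₗ[k0 C] F, Φ = Fintype.linearCombination (k0 C) (fun i => C.cl (y i)) :=
    ⟨_, rfl⟩
  have hker : ∀ l, W l ∈ LinearMap.ker Φ := by
    intro l
    rw [LinearMap.mem_ker, hΦ, Fintype.linearCombination_apply]
    have h1 : C.cl (∑ i, b l i * y i) = 0 := by
      rw [C.ker]
      intro k'
      filter_upwards [hs l k'] with j hj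
      have h2 : ((∑ i, b l i * y i : A x) : ℕ → ℝ) j = ∑ i, (v j l i : ℝ) * (y i : ℕ → ℝ) j := by
        rw [sum_apply]
        refine Finset.sum_congr rfl fun i _ => ?_
        rw [← hb]
        rfl
      rw [h2]
      exact hj
    rw [← h1, map_sum]
    refine Finset.sum_congr rfl fun i _ => ?_
    rw [Subfield.smul_def, smul_eq_mul, hW, map_mul]
  have h1 : m ≤ finrank (k0 C) (LinearMap.ker Φ) := by
    have h2 : LinearIndependent (k0 C) (fun l => (⟨W l, hker l⟩ : LinearMap.ker Φ)) :=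
      LinearIndependent.of_comp (LinearMap.ker Φ).subtype (by exact hli)
    simpa using h2.fintype_card_le_finrank
  have h2 := LinearMap.finrank_range_add_finrank_ker Φ
  rw [Module.finrank_fintype_fun_eq_card] at h2
  have h3 : LinearMap.range Φ = Submodule.span (k0 C) (Set.range fun i => C.cl (y i)) := by
    rw [hΦ, Fintype.range_linearCombination]
  rw [h3] at h2
  omega

end Pool.Agent.H494.NG
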