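import Pool.Agent.H494.NG.Grow
import Pool.Agent.H494.DQ.QPoly
import Pool.Graph.R_seed8.TH456.TM.Inst

/-!
# Near relations of higher degree between `t` and odd zeta values
-/

set_option autoImplicit false

open Module

noncomputable section

namespace Pool.Agent.H494.NG

open Pool.Agent.Q29.SpaceRank Pool.Agent.H494.DZ Pool.Agent.H494.DQ Pool.Agent.H337R2

theorem tmeas_of_measT {t : ℝ} (ht : Pool.Agent.TH456.TM.MeasT (t : ℂ)) : TMeas t := by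
  intro d
  obtain ⟨κ, c, hκ, hc, h⟩ := ht d
  refine ⟨⌈κ⌉₊, c, hc, fun P hP hd H hH hcoef => ?_⟩
  have h1 := h P hP hd H hH hcoef
  have h2 : Polynomial.aeval (t : ℂ) P = ((Polynomial.aeval t P : ℝ) : ℂ) :=
    Polynomial.aeval_algebraMap_apply ℂ t P
  rw [h2, Complex.norm_real, Real.norm_eq_abs] at h1
  have hH0 : 0 < H := by linarith
  rw [div_le_iff₀ (by positivity)]
  have h3 : H ^ κ ≤ H ^ ⌈κ⌉₊ := by
    rw [← Real.rpow_natCast]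
    exact Real.rpow_le_rpow_of_exponent_le hH (Nat.le_ceil κ)
  calc c ≤ H ^ κ * |Polynomial.aeval t P| := h1
    _ ≤ H ^ ⌈κ⌉₊ * |Polynomial.aeval t P| := mul_le_mul_of_nonneg_right h3 (abs_nonneg _)
    _ = _ := mul_comm _ _

theorem tmeas_pi : TMeas Real.pi := tmeas_of_measT Pool.Agent.TH456.TM.measT_pi

/-- **Near relations of higher degree between `t` and the odd zeta values of a window.** -/
theorem near_window {t : ℝ} (ht : TMeas t) {b S s K D : ℕ} (hs : Win b S s) (hK : K + 1 ≤ S) (hD : 1 ≤ D)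
    (B : ℕ) (T : Finset ℕ) (J : ℕ → ℕ)
    (hJ : Set.ncard {j : ℕ | b < j ∧ j ≤ s ∧ Odd j ∧ ∀ k ∈ T, J k ≠ j} ≤ K) (M : Finset (ℕ →₀ ℕ))
    (hM : ∀ m : ℕ →₀ ℕ, m.support ⊆ insert 0 T → m.degree ≤ D → m ∈ M) :
    ∃ (E : ℕ) (c : ℝ), 0 < c ∧ ∀ x : ℕ → ℝ, x 0 = t → (∀ k ∈ T, x k = zr (J k)) → ∀ X : ℝ, 1 ≤ X →
      (∀ k, |x k| ≤ B * X ^ B) →
      2 * finrank ℚ (Submodule.span ℚ (Near M x X (c / X ^ E))) + (D + 1) * (S - K + 1) ≤ 2 * M.card := by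
  classical
  have hfin : {j : ℕ | b < j ∧ j ≤ s ∧ Odd j ∧ ∀ k ∈ T, J k ≠ j}.Finite :=
    (Set.finite_Iic s).subset fun j hj => hj.2.1
  rw [Set.ncard_eq_toFinset_card _ hfin] at hJ
  obtain ⟨e, he⟩ : ∃ e : Fin T.card ≃ T, e = (T.equivFin).symm := ⟨_, rfl⟩
  obtain ⟨c0, hc0, hdist⟩ := space_dist (D := S - K - 1) hs (by omega) (fun i : Fin T.card => zr (J (e i)))
    hfin.toFinset hJ (fun j h1 h2 h3 h4 => by
      rw [Set.Finite.mem_toFinset] at h4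
      by_contra h5
      push Not at h5
      refine h4 ⟨h1, h2, h3, fun k hk hkj => h5 (e.symm ⟨k, hk⟩) ?_⟩
      rw [Equiv.apply_symm_apply, hkj])
  obtain ⟨n, rfl⟩ : ∃ n, D = n + 1 := ⟨D - 1, by omega⟩
  obtain ⟨E, c, hc, h⟩ := near_grow M (insert 0 T) n hM _ (S - K - 1) (20 * S) c0 hc0 hdist t ht 0
    (Finset.mem_insert_self _ _) (fun i => (e i : ℕ)) (fun i => Finset.mem_insert_of_mem (e i).2) B
  refine ⟨E, c, hc, fun x hx0 hxT X hX hB => ?_⟩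
  have h1 := h x hx0 (fun i => hxT _ (e i).2) X hX hB
  have h2 : S - K - 1 + 2 = S - K + 1 := by omega
  rw [h2] at h1
  exact h1

/-- **All odd zeta values up to `s`.** -/
theorem near_all {t : ℝ} (ht : TMeas t) {s D : ℕ} (hs : 2 ^ 48 ≤ s) (hD : 1 ≤ D) (B : ℕ)
    (M : Finset (ℕ →₀ ℕ))
    (hM : ∀ m : ℕ →₀ ℕ, (∀ k ∈ m.support, 2 * k + 1 ≤ s) → m.degree ≤ D → m ∈ M) :
    ∃ (E : ℕ) (c : ℝ), 0 < c ∧ ∀ x : ℕ → ℝ, x 0 = t →
      (∀ k, 1 ≤ k → 2 * k + 1 ≤ s → x k = zr (2 * k + 1)) → ∀ X : ℝ, 1 ≤ X →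
      (∀ k, |x k| ≤ B * X ^ B) →
      (finrank ℚ (Submodule.span ℚ (Near M x X (c / X ^ E))) : ℝ) +
        ((D : ℝ) + 1) / 2 ^ 17 * ((s : ℝ) * Real.log s) ^ ((1 : ℝ) / 3) ≤ M.card := by
  obtain ⟨S, hS, hSs, hW⟩ := exists_S s hs
  obtain ⟨E, c, hc, h⟩ := near_window ht (K := 0) hW (by omega) hD B (Finset.Icc 1 ((s - 1) / 2))
    (fun k => 2 * k + 1) (by
      have h1 : {j : ℕ | 2 < j ∧ j ≤ s ∧ Odd j ∧ ∀ k ∈ Finset.Icc 1 ((s - 1) / 2), 2 * k + 1 ≠ j} = ∅ := by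
        rw [Set.eq_empty_iff_forall_notMem]
        rintro j ⟨h2, h3, ⟨k, hk⟩, h4⟩
        exact h4 k (Finset.mem_Icc.2 ⟨by omega, by omega⟩) hk.symm
      rw [h1, Set.ncard_empty]) M (fun m hm hd => hM m (fun k hk => by
        have h2 := hm hk
        rw [Finset.mem_insert, Finset.mem_Icc] at h2
        have : 2 ^ 48 ≤ s := hs
        have h3 : 1 ≤ s := le_trans (by norm_num) hs
        omega) hd)
  refine ⟨E, c, hc, fun x hx0 hx X hX hB => ?_⟩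
  have h1 := h x hx0 (fun k hk => by
    rw [Finset.mem_Icc] at hk
    exact hx k hk.1 (by omega)) X hX hB
  rw [Nat.sub_zero] at h1
  have h2 : ((2 * finrank ℚ (Submodule.span ℚ (Near M x X (c / X ^ E))) + (D + 1) * (S + 1) : ℕ) : ℝ) ≤
      ((2 * M.card : ℕ) : ℝ) := by exact_mod_cast h1
  push_cast at h2
  have h3 : ((D : ℝ) + 1) * (1 / 2 ^ 16 * ((s : ℝ) * Real.log s) ^ ((1 : ℝ) / 3)) ≤ ((D : ℝ) + 1) * (S + 1) := by
    gcongr
  have h4 : ((D : ℝ) + 1) / 2 ^ 17 * ((s : ℝ) * Real.log s) ^ ((1 : ℝ) / 3) =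
      ((D : ℝ) + 1) * (1 / 2 ^ 16 * ((s : ℝ) * Real.log s) ^ ((1 : ℝ) / 3)) / 2 := by ring
  rw [h4]
  linarith

end Pool.Agent.H494.NG
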