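import Mathlib

/-!
# A residue field of the sequences of real numbers of polynomial growth

`X j → ∞` is a sequence of scales. `A` is the ring of the real sequences which are `O(X ^ k)` for some `k`, along an
ultrafilter; `I` is the ideal of the sequences which are `O(X ^ (-k))` for all `k`; `K = A / I` is a field; `k0` is the
subfield generated by the sequences of integers in `A`.
-/

set_option autoImplicit false

open Filter Module

noncomputable section

namespace Pool.Agent.H494.NG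

/-- a sequence of scales tending to infinity -/
structure Scale where
  /-- the scales -/
  X : ℕ → ℝ
  hX : ∀ j : ℕ, (j : ℝ) + 2 ≤ X j

/-- the ultrafilter -/
abbrev U : Filter ℕ := (hyperfilter ℕ : Filter ℕ)

theorem Scale.two_le (x : Scale) (j : ℕ) : 2 ≤ x.X j := by
  have := x.hX j
  have h : (0 : ℝ) ≤ j := Nat.cast_nonneg j
  linarith

theorem Scale.one_le (x : Scale) (j : ℕ) : 1 ≤ x.X j := by
  have := x.two_le j
  linarith

theorem Scale.pos (x : Scale) (j : ℕ) : 0 < x.X j := by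
  have := x.two_le j
  linarith

theorem Scale.ev_gt (x : Scale) (C : ℝ) : ∀ᶠ j in U, C < x.X j := by
  refine Eventually.filter_mono Nat.hyperfilter_le_atTop ?_
  filter_upwards [eventually_ge_atTop ⌈C⌉₊] with j hj
  have h1 := x.hX j
  have h2 : C ≤ (j : ℝ) := (Nat.le_ceil C).trans (by exact_mod_cast hj)
  linarith

theorem ev_ge (k : ℕ) : ∀ᶠ j in U, k ≤ j :=
  Eventually.filter_mono Nat.hyperfilter_le_atTop (eventually_ge_atTop k)

/-- the sequences of polynomial growth -/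
def A (x : Scale) : Subring (ℕ → ℝ) where
  carrier := {a | ∃ k : ℕ, ∀ᶠ j in U, |a j| ≤ x.X j ^ k}
  mul_mem' := by
    rintro a b ⟨k, ha⟩ ⟨l, hb⟩
    refine ⟨k + l, ?_⟩
    filter_upwards [ha, hb] with j h1 h2
    rw [Pi.mul_apply, abs_mul, pow_add]
    have := x.pos j
    exact mul_le_mul h1 h2 (abs_nonneg _) (by positivity)
  one_mem' := ⟨0, by simp⟩
  add_mem' := by
    rintro a b ⟨k, ha⟩ ⟨l, hb⟩
    refine ⟨k + l + 1, ?_⟩
    filter_upwards [ha, hb] with j h1 h2
    have h3 := x.two_le j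
    have h4 := x.one_le j
    have h5 : x.X j ^ k ≤ x.X j ^ (k + l) := pow_le_pow_right₀ h4 (by omega)
    have h6 : x.X j ^ l ≤ x.X j ^ (k + l) := pow_le_pow_right₀ h4 (by omega)
    have h7 : 0 < x.X j ^ (k + l) := pow_pos (x.pos j) _
    rw [Pi.add_apply, pow_succ]
    calc |a j + b j| ≤ |a j| + |b j| := abs_add_le _ _
      _ ≤ x.X j ^ (k + l) * 2 := by linarith
      _ ≤ x.X j ^ (k + l) * x.X j := mul_le_mul_of_nonneg_left h3 h7.le
  zero_mem' := ⟨0, by simp⟩
  neg_mem' := by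
    rintro a ⟨k, ha⟩
    refine ⟨k, ?_⟩
    filter_upwards [ha] with j h1
    rwa [Pi.neg_apply, abs_neg]

/-- the infinitely small sequences -/
def I (x : Scale) : Ideal (A x) where
  carrier := {a | ∀ k : ℕ, ∀ᶠ j in U, |(a : ℕ → ℝ) j| * x.X j ^ k ≤ 1}
  add_mem' := by
    intro a b ha hb k
    filter_upwards [ha (k + 1), hb (k + 1)] with j h1 h2
    have h3 := x.two_le j
    have h4 : 0 < x.X j ^ k := pow_pos (x.pos j) _
    rw [pow_succ, ← mul_assoc] at h1 h2
    have h5 : |(a : ℕ → ℝ) j + (b : ℕ → ℝ) j| ≤ |(a : ℕ → ℝ) j| + |(b : ℕ → ℝ) j| := abs_add_le _ _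
    have h6 := mul_le_mul_of_nonneg_right h5 h4.le
    have h7 : (|(a : ℕ → ℝ) j + (b : ℕ → ℝ) j| * x.X j ^ k) * x.X j ≤ 2 := by
      calc (|(a : ℕ → ℝ) j + (b : ℕ → ℝ) j| * x.X j ^ k) * x.X j
          ≤ ((|(a : ℕ → ℝ) j| + |(b : ℕ → ℝ) j|) * x.X j ^ k) * x.X j :=
            mul_le_mul_of_nonneg_right h6 (x.pos j).le
        _ = |(a : ℕ → ℝ) j| * x.X j ^ k * x.X j + |(b : ℕ → ℝ) j| * x.X j ^ k * x.X j := by ring
        _ ≤ 2 := by linarith
    have h8 : 0 ≤ |(a : ℕ → ℝ) j + (b : ℕ → ℝ) j| * x.X j ^ k := by positivity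
    show |(a : ℕ → ℝ) j + (b : ℕ → ℝ) j| * x.X j ^ k ≤ 1
    nlinarith
  zero_mem' := by
    intro k
    filter_upwards with j
    show |(0 : ℝ)| * x.X j ^ k ≤ 1
    simp
  smul_mem' := by
    intro c a ha k
    obtain ⟨l, hl⟩ := c.2
    filter_upwards [ha (k + l), hl] with j h1 h2
    have h4 : 0 < x.X j ^ k := pow_pos (x.pos j) _
    show |(c : ℕ → ℝ) j * (a : ℕ → ℝ) j| * x.X j ^ k ≤ 1
    rw [abs_mul]
    calc |(c : ℕ → ℝ) j| * |(a : ℕ → ℝ) j| * x.X j ^ k
        ≤ x.X j ^ l * |(a : ℕ → ℝ) j| * x.X j ^ k := by gcongr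
      _ = |(a : ℕ → ℝ) j| * x.X j ^ (k + l) := by rw [pow_add]; ring
      _ ≤ 1 := h1

instance (x : Scale) : (I x).IsMaximal := by
  rw [Ideal.isMaximal_iff]
  refine ⟨fun h => ?_, fun J a hJ ha haJ => ?_⟩
  · have h1 := (h 1).and (x.ev_gt 1)
    obtain ⟨j, h2, h3⟩ := h1.exists
    have h4 : |(1 : ℝ)| * x.X j ^ 1 ≤ 1 := h2
    rw [abs_one, one_mul, pow_one] at h4
    linarith
  · have h1 : ∃ k : ℕ, ∀ᶠ j in U, 1 < |(a : ℕ → ℝ) j| * x.X j ^ k := by
      by_contra hcon
      rw [not_exists] at hcon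
      refine ha fun k => ?_
      have h2 := Ultrafilter.eventually_not.2 (hcon k)
      filter_upwards [h2] with j hj
      exact not_lt.1 hj
    obtain ⟨k, hk⟩ := h1
    obtain ⟨b, hb⟩ : ∃ b : A x, ∀ j, (b : ℕ → ℝ) j = ((a : ℕ → ℝ) j)⁻¹ := by
      refine ⟨⟨fun j => ((a : ℕ → ℝ) j)⁻¹, k, ?_⟩, fun j => rfl⟩
      filter_upwards [hk] with j hj
      have h4 : 0 < |(a : ℕ → ℝ) j| := by
        by_contra h5
        have h6 : |(a : ℕ → ℝ) j| = 0 := le_antisymm (not_lt.1 h5) (abs_nonneg _)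
        rw [h6, zero_mul] at hj
        linarith
      rw [abs_inv, inv_le_iff_one_le_mul₀ h4]
      linarith [mul_comm (|(a : ℕ → ℝ) j|) (x.X j ^ k)]
    have h3 : b * a - 1 ∈ I x := by
      intro l
      filter_upwards [hk] with j hj
      have h4 : (a : ℕ → ℝ) j ≠ 0 := by
        intro h5
        rw [h5, abs_zero, zero_mul] at hj
        linarith
      show |(b : ℕ → ℝ) j * (a : ℕ → ℝ) j - 1| * x.X j ^ l ≤ 1
      rw [hb, inv_mul_cancel₀ h4, sub_self, abs_zero, zero_mul]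
      exact zero_le_one
    have h4 : b * a - (b * a - 1) ∈ J := J.sub_mem (J.mul_mem_left b haJ) (hJ h3)
    rwa [sub_sub_cancel] at h4

/-- a residue field: a field with a surjective map from `A`, whose kernel is `I` -/
structure Cls (x : Scale) (F : Type) [Field F] where
  /-- the class of a sequence -/
  cl : A x →+* F
  surj : Function.Surjective cl
  ker : ∀ a : A x, cl a = 0 ↔ ∀ k : ℕ, ∀ᶠ j in U, |(a : ℕ → ℝ) j| * x.X j ^ k ≤ 1

theorem exists_cls (x : Scale) : ∃ (F : Type) (_ : Field F), Nonempty (Cls x F) := by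
  letI : Field (A x ⧸ I x) := Ideal.Quotient.field (I x)
  exact ⟨A x ⧸ I x, inferInstance, ⟨⟨Ideal.Quotient.mk (I x), Ideal.Quotient.mk_surjective,
    fun _ => Ideal.Quotient.eq_zero_iff_mem⟩⟩⟩

/-- the constant sequences -/
def cst (x : Scale) : ℝ →+* A x where
  toFun r := ⟨fun _ => r, 1, by
    filter_upwards [x.ev_gt |r|] with j hj
    rw [pow_one]
    exact hj.le⟩
  map_one' := rfl
  map_mul' := fun _ _ => rfl
  map_zero' := rfl
  map_add' := fun _ _ => rfl

variable {x : Scale} {F : Type} [Field F] (C : Cls x F)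

/-- the embedding of the real numbers -/
def em : ℝ →+* F := C.cl.comp (cst x)

/-- the classes of the sequences of integers -/
def R0 : Subring F where
  carrier := {a | ∃ (z : ℕ → ℤ) (b : A x), (∀ j, (b : ℕ → ℝ) j = z j) ∧ a = C.cl b}
  mul_mem' := by
    rintro _ _ ⟨z, b, h, rfl⟩ ⟨z', b', h', rfl⟩
    refine ⟨fun j => z j * z' j, b * b', fun j => ?_, (map_mul _ _ _).symm⟩
    show (b : ℕ → ℝ) j * (b' : ℕ → ℝ) j = _
    rw [h, h']
    push_cast
    rfl
  one_mem' := ⟨fun _ => 1, 1, fun j => by simp, (map_one _).symm⟩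
  add_mem' := by
    rintro _ _ ⟨z, b, h, rfl⟩ ⟨z', b', h', rfl⟩
    refine ⟨fun j => z j + z' j, b + b', fun j => ?_, (map_add _ _ _).symm⟩
    show (b : ℕ → ℝ) j + (b' : ℕ → ℝ) j = _
    rw [h, h']
    push_cast
    rfl
  zero_mem' := ⟨fun _ => 0, 0, fun j => by simp, (map_zero _).symm⟩
  neg_mem' := by
    rintro _ ⟨z, b, h, rfl⟩
    refine ⟨fun j => - z j, -b, fun j => ?_, (map_neg _ _).symm⟩
    show -(b : ℕ → ℝ) j = _
    rw [h]
    push_cast
    rfl

/-- the subfield generated by the sequences of integers -/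
def k0 : Subfield F := Subfield.closure (R0 C : Set F)

variable {C}

theorem R0_le {a : F} (h : a ∈ R0 C) : a ∈ k0 C := Subfield.subset_closure h

/-- a sequence of integers whose class is zero vanishes -/
theorem int_zero {z : ℕ → ℤ} {b : A x} (h : ∀ j, (b : ℕ → ℝ) j = z j) :
    C.cl b = 0 ↔ ∀ᶠ j in U, z j = 0 := by
  rw [C.ker]
  constructor
  · intro h1
    filter_upwards [h1 1] with j h2
    rw [h, pow_one] at h2
    have h3 := x.two_le j
    by_contra h4
    have h5 : (1 : ℝ) ≤ |(z j : ℝ)| := by exact_mod_cast Int.one_le_abs h4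
    nlinarith
  · intro h1 k
    filter_upwards [h1] with j h2
    rw [h, h2]
    simp

/-- denominators -/
theorem exists_den (c : k0 C) : ∃ q ∈ R0 C, q ≠ 0 ∧ q * (c : F) ∈ R0 C := by
  obtain ⟨y, hy, z, hz, h⟩ := (Subfield.mem_closure_iff).1 c.2
  rw [Subring.closure_eq] at hy hz
  by_cases hz0 : z = 0
  · refine ⟨1, (R0 C).one_mem, one_ne_zero, ?_⟩
    rw [← h, hz0, div_zero, mul_zero]
    exact (R0 C).zero_mem
  · refine ⟨z, hz, hz0, ?_⟩
    rw [← h, mul_div_cancel₀ _ hz0]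
    exact hy

/-- common denominators -/
theorem exists_common {ι : Type} [Fintype ι] (c : ι → k0 C) :
    ∃ q ∈ R0 C, q ≠ 0 ∧ ∀ i, q * (c i : F) ∈ R0 C := by
  classical
  choose q hq h0 h using fun i => exists_den (c i)
  refine ⟨∏ i, q i, (R0 C).prod_mem fun i _ => hq i, Finset.prod_ne_zero_iff.2 fun i _ => h0 i, fun i => ?_⟩
  rw [← Finset.mul_prod_erase Finset.univ q (Finset.mem_univ i), mul_right_comm]
  exact (R0 C).mul_mem (h i) ((R0 C).prod_mem fun i _ => hq i)

end Pool.Agent.H494.NG
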